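import Mathlib
set_option autoImplicit false

/-! Iterated sumsets of a finite set in an abelian group. -/

namespace Pool.Agent.TH513.IS

open Finset
open scoped Pointwise

variable {G : Type*} [AddCommGroup G] [DecidableEq G]

/-- the `n`-fold sumset -/
def sm (A : Finset G) (n : ℕ) : Finset G :=
  (Fintype.piFinset fun _ : Fin n => A).image fun f => ∑ i, f i

theorem mem_sm {A : Finset G} {n : ℕ} {x : G} :
    x ∈ sm A n ↔ ∃ f : Fin n → G, (∀ i, f i ∈ A) ∧ ∑ i, f i = x := by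
  simp [sm, Fintype.mem_piFinset]

theorem add_mem_sm {A : Finset G} {m n : ℕ} {x y : G} (hx : x ∈ sm A m) (hy : y ∈ sm A n) :
    x + y ∈ sm A (m + n) := by
  rw [mem_sm] at hx hy ⊢
  obtain ⟨f, hf, rfl⟩ := hx
  obtain ⟨g, hg, rfl⟩ := hy
  refine ⟨Fin.append f g, ?_, ?_⟩
  · intro i
    refine Fin.addCases (fun j => ?_) (fun j => ?_) i
    · rw [Fin.append_left]; exact hf j
    · rw [Fin.append_right]; exact hg j
  · rw [Fin.sum_univ_add]
    simp

theorem sm_one_mem {A : Finset G} {a : G} (ha : a ∈ A) : a ∈ sm A 1 := by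
  rw [mem_sm]
  exact ⟨fun _ => a, fun _ => ha, by simp⟩

theorem nsmul_mem_sm {A : Finset G} {a : G} (ha : a ∈ A) (n : ℕ) : n • a ∈ sm A n := by
  rw [mem_sm]
  exact ⟨fun _ => a, fun _ => ha, by simp⟩

theorem sm_nonempty {A : Finset G} (hA : A.Nonempty) (n : ℕ) : (sm A n).Nonempty := by
  obtain ⟨a, ha⟩ := hA
  exact ⟨_, nsmul_mem_sm ha n⟩

theorem sm_add_subset {A : Finset G} {m n : ℕ} : sm A m + sm A n ⊆ sm A (m + n) := by
  intro x hx
  obtain ⟨y, hy, z, hz, rfl⟩ := Finset.mem_add.1 hx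
  exact add_mem_sm hy hz

theorem sm_card_mono {A : Finset G} (hA : A.Nonempty) {m n : ℕ} (h : m ≤ n) :
    (sm A m).card ≤ (sm A n).card := by
  obtain ⟨a, ha⟩ := hA
  obtain ⟨k, rfl⟩ := Nat.exists_eq_add_of_le h
  apply Finset.card_le_card_of_injOn (fun x => x + k • a)
  · intro x hx
    exact add_mem_sm hx (nsmul_mem_sm ha k)
  · intro x _ y _ hxy
    exact add_right_cancel hxy

theorem sm_one (A : Finset G) : sm A 1 = A := by
  ext x
  rw [mem_sm]
  constructor
  · rintro ⟨f, hf, rfl⟩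
    simpa using hf 0
  · intro hx
    exact ⟨fun _ => x, fun _ => hx, by simp⟩

theorem sm_image {H : Type*} [AddCommGroup H] [DecidableEq H] (φ : H →+ G) (A : Finset H)
    (n : ℕ) : (sm A n).image φ = sm (A.image φ) n := by
  ext x
  rw [Finset.mem_image, mem_sm]
  constructor
  · rintro ⟨y, hy, rfl⟩
    rw [mem_sm] at hy
    obtain ⟨f, hf, rfl⟩ := hy
    exact ⟨fun i => φ (f i), fun i => Finset.mem_image_of_mem _ (hf i), by rw [map_sum]⟩
  · rintro ⟨f, hf, rfl⟩
    have : ∀ i, ∃ y, y ∈ A ∧ φ y = f i := fun i => by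
      obtain ⟨y, hy, h⟩ := Finset.mem_image.1 (hf i)
      exact ⟨y, hy, h⟩
    choose g hg1 hg2 using this
    refine ⟨∑ i, g i, mem_sm.2 ⟨g, hg1, rfl⟩, ?_⟩
    rw [map_sum]
    exact Finset.sum_congr rfl fun i _ => hg2 i

/-- pigeonhole over the dyadic scales -/
theorem exists_scale {A : Finset G} (hA : A.Nonempty) {J : ℕ} {K : ℝ} (hK : 0 < K)
    (h : ((sm A (2 ^ J)).card : ℝ) ≤ K ^ J * A.card) (hJ : 1 ≤ J) :
    ∃ i < J, ((sm A (2 ^ (i + 1))).card : ℝ) ≤ K * (sm A (2 ^ i)).card := by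
  by_contra hcon
  push Not at hcon
  have hpos : ∀ i, (0 : ℝ) < (sm A (2 ^ i)).card := fun i => by
    exact_mod_cast (sm_nonempty hA _).card_pos
  have key : ∀ i, 1 ≤ i → i ≤ J → K ^ i * A.card < (sm A (2 ^ i)).card := by
    intro i hi
    induction i, hi using Nat.le_induction with
    | base =>
      intro hJ1
      have h1 := hcon 0 (by omega)
      rw [pow_zero, sm_one] at h1
      simpa using h1
    | succ i hi ih =>
      intro hiJ
      have h1 := ih (by omega)
      have h2 := hcon i (by omega)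
      calc K ^ (i + 1) * A.card = K * (K ^ i * A.card) := by ring
        _ < K * (sm A (2 ^ i)).card := mul_lt_mul_of_pos_left h1 hK
        _ < _ := h2
  exact absurd (key J hJ le_rfl) (not_lt.2 h)

end Pool.Agent.TH513.IS
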