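import Pool.Agent.H112R2.Final
import Pool.Agent.TH513.IS.Sums
set_option autoImplicit false

/-! The Freiman-Ruzsa theorem for iterated sumsets. -/

namespace Pool.Agent.TH513.IS

open Finset H112
open scoped Pointwise

/-- the structure attached to the scale found by the pigeonhole principle -/
theorem scale_fg {G : Type*} [AddCommGroup G] [AddGroup.FG G] [DecidableEq G] {L K : ℝ} {J : ℕ}
    {A : Finset G} (hA : A.Nonempty) (hJ : 1 ≤ J)
    (hL : ((sm A (2 ^ J)).card : ℝ) ≤ L * A.card) (hL1 : 1 ≤ L) (hK1 : 1 ≤ K)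
    (hKL : L ≤ K ^ J) :
    ∃ (d : ℕ) (B : Set (Fin d → ℝ)) (ψ : (Fin d → ℤ) →+ G) (H₀ : AddSubgroup G) (T : Finset G),
      (d : ℝ) ≤ 300 * Real.log (2 * K) ∧ SymmBody B ∧ Finite H₀ ∧
      {c : Fin d → ℤ | (fun i => (c i : ℝ)) ∈ B}.ncard * Nat.card H₀ ≤ A.card ∧
      (T.card : ℝ) ≤
        L * (2 * K) ^ (13000 * (1 + Real.log (1 + Real.log (2 * K)))) ∧
      Covers B ψ H₀ T A := by
  classical
  have hK0 : 0 < K := by linarith
  have hApos : (0 : ℝ) < A.card := by exact_mod_cast hA.card_pos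
  obtain ⟨i, hi, hiK⟩ := exists_scale hA hK0
    (hL.trans (mul_le_mul_of_nonneg_right hKL hApos.le)) hJ
  obtain ⟨B, hB⟩ : ∃ B, B = sm A (2 ^ i) := ⟨_, rfl⟩
  have hBne : B.Nonempty := by rw [hB]; exact sm_nonempty hA _
  have hBB : ((B + B).card : ℝ) ≤ K * B.card := by
    have h1 : (B + B).card ≤ (sm A (2 ^ (i + 1))).card := by
      apply Finset.card_le_card
      have e : 2 ^ (i + 1) = 2 ^ i + 2 ^ i := by ring
      rw [hB, e]
      exact sm_add_subset
    have h2 : ((B + B).card : ℝ) ≤ (sm A (2 ^ (i + 1))).card := by exact_mod_cast h1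
    rw [← hB] at hiK
    exact h2.trans hiK
  have hBL : (B.card : ℝ) ≤ L * A.card := by
    have h1 : B.card ≤ (sm A (2 ^ J)).card := by
      rw [hB]
      exact sm_card_mono hA (Nat.pow_le_pow_right (by norm_num) hi.le)
    have h2 : (B.card : ℝ) ≤ (sm A (2 ^ J)).card := by exact_mod_cast h1
    exact h2.trans hL
  obtain ⟨κ, hκ⟩ : ∃ κ : ℝ, κ = Real.log (2 * K) := ⟨_, rfl⟩
  have hκlog2 : Real.log 2 ≤ κ := by
    rw [hκ]; exact Real.log_le_log (by norm_num) (by linarith)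
  have hκ69 : (0.69 : ℝ) < κ := lt_of_lt_of_le log_two_gt hκlog2
  obtain ⟨S, X, V, ρ, m, N, ψ, hfin, hV1, hsize, hρ0, hρ12, hX, hN, h1, h2, hm, hXV⟩ :=
    structure_thm hBne hBB hK1 hκ
  obtain ⟨a₀, ha₀⟩ := hA
  obtain ⟨k, hk⟩ : ∃ k, 2 ^ i = k + 1 := ⟨2 ^ i - 1, by
    have := Nat.one_le_two_pow (n := i)
    omega⟩
  -- `A` is covered as well
  have hX' : ∀ a ∈ A, ∃ x ∈ X.image (fun x => x - k • a₀), a - x ∈ bohr S ρ := by
    intro a ha
    have h3 : a + k • a₀ ∈ B := by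
      rw [hB, hk, add_comm k 1]
      exact add_mem_sm (sm_one_mem ha) (nsmul_mem_sm ha₀ k)
    obtain ⟨x, hx, hxa⟩ := hX _ h3
    refine ⟨x - k • a₀, Finset.mem_image_of_mem _ hx, ?_⟩
    have e : a - (x - k • a₀) = a + k • a₀ - x := by abel
    rw [e]
    exact hxa
  have hsize' : ((bohr S (1 / 6)).ncard : ℝ) ≤ (V * L) * A.card := by
    calc ((bohr S (1 / 6)).ncard : ℝ) ≤ V * B.card := hsize
      _ ≤ V * (L * A.card) := mul_le_mul_of_nonneg_left hBL (by linarith)
      _ = _ := by ring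
  have hVL : 1 ≤ V * L := by nlinarith
  obtain ⟨d, Bd, ψ', H₀, T, hd, hBd, hH₀, hvol, hT, hcov⟩ :=
    cover_final S hfin ⟨a₀, ha₀⟩ hVL hsize' hρ0 hρ12 hX' N ψ hN h1 h2
  have hlogκ : 0 ≤ Real.log (1 + κ) := Real.log_nonneg (by linarith)
  refine ⟨d, Bd, ψ', H₀, T, ?_, hBd, hH₀, hvol, ?_, hcov⟩
  · rw [← hκ]
    have : (d : ℝ) ≤ max (m : ℝ) 1 := by exact_mod_cast hd
    refine this.trans (max_le hm (by linarith))
  · rw [← exp_eq_rpow hK1, ← hκ]
    have h3 : ((4 * (m : ℝ) + 1)) ^ (2 * m) ≤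
        Real.exp ((600 * κ) * (8 * (1 + Real.log (1 + κ)))) :=
      pow_le_exp (by positivity) (log_4m_le hκ69 hm) (by push_cast; linarith) (by positivity)
    have hV0 : 0 ≤ V := by linarith
    have hXc : ((X.image (fun x => x - k • a₀)).card : ℝ) ≤ X.card := by
      exact_mod_cast Finset.card_image_le
    calc (T.card : ℝ) ≤ (X.image (fun x => x - k • a₀)).card *
          (6 * (V * L) * (4 * m + 1) ^ (2 * m)) := hT
      _ ≤ X.card * (6 * (V * L) * (4 * m + 1) ^ (2 * m)) :=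
          mul_le_mul_of_nonneg_right hXc (by positivity)
      _ = L * ((X.card * V) * (6 * (4 * m + 1) ^ (2 * m))) := by ring
      _ ≤ L * (Real.exp (8000 * κ * (1 + Real.log (1 + κ))) *
            (Real.exp (3 * κ) * Real.exp ((600 * κ) * (8 * (1 + Real.log (1 + κ)))))) := by
          apply mul_le_mul_of_nonneg_left _ (by linarith)
          apply mul_le_mul hXV _ (by positivity) (by positivity)
          exact mul_le_mul (six_le_exp hκ69) h3 (by positivity) (by positivity)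
      _ = L * Real.exp (8000 * κ * (1 + Real.log (1 + κ)) +
            (3 * κ + (600 * κ) * (8 * (1 + Real.log (1 + κ))))) := by
          rw [← Real.exp_add, ← Real.exp_add]
      _ ≤ L * Real.exp (13000 * κ * (1 + Real.log (1 + κ))) := by
          apply mul_le_mul_of_nonneg_left _ (by linarith)
          apply Real.exp_le_exp.2
          have h10 : 0 ≤ κ * Real.log (1 + κ) := mul_nonneg (by linarith) hlogκ
          nlinarith

/-- the same in an arbitrary abelian group -/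
theorem scale_general {G : Type*} [AddCommGroup G] [DecidableEq G] {L K : ℝ} {J : ℕ}
    {A : Finset G} (hA : A.Nonempty) (hJ : 1 ≤ J)
    (hL : ((sm A (2 ^ J)).card : ℝ) ≤ L * A.card) (hL1 : 1 ≤ L) (hK1 : 1 ≤ K)
    (hKL : L ≤ K ^ J) :
    ∃ (d : ℕ) (B : Set (Fin d → ℝ)) (ψ : (Fin d → ℤ) →+ G) (H₀ : AddSubgroup G) (T : Finset G),
      (d : ℝ) ≤ 300 * Real.log (2 * K) ∧ SymmBody B ∧ Finite H₀ ∧
      {c : Fin d → ℤ | (fun i => (c i : ℝ)) ∈ B}.ncard * Nat.card H₀ ≤ A.card ∧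
      (T.card : ℝ) ≤
        L * (2 * K) ^ (13000 * (1 + Real.log (1 + Real.log (2 * K)))) ∧
      Covers B ψ H₀ T A := by
  classical
  obtain ⟨Γ, hΓ⟩ : ∃ Γ : AddSubgroup G, Γ = AddSubgroup.closure (A : Set G) := ⟨_, rfl⟩
  obtain ⟨A', hA'⟩ := exists_model A Γ (fun a ha => by
    rw [hΓ]; exact AddSubgroup.subset_closure ha)
  have hinj : Function.Injective Γ.subtype := Γ.subtype_injective
  have : AddGroup.FG Γ := by
    rw [AddGroup.fg_iff_addSubgroup_fg]
    exact ⟨A, hΓ.symm⟩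
  have hA'ne : A'.Nonempty := by
    rw [← hA'] at hA; exact Finset.image_nonempty.1 hA
  have hcard : A'.card = A.card := by
    rw [← hA', Finset.card_image_of_injective _ hinj]
  have hcard2 : (sm A' (2 ^ J)).card = (sm A (2 ^ J)).card := by
    rw [← hA', ← sm_image, Finset.card_image_of_injective _ hinj]
  have hL' : ((sm A' (2 ^ J)).card : ℝ) ≤ L * A'.card := by rw [hcard2, hcard]; exact hL
  obtain ⟨d, B, ψ, H₀, T, hd, hB, hH₀, hvol, hT, hcov⟩ := scale_fg hA'ne hJ hL' hL1 hK1 hKL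
  refine ⟨d, B, Γ.subtype.comp ψ, H₀.map Γ.subtype, T.image Γ.subtype, hd, hB, ?_, ?_, ?_, ?_⟩
  · have : (H₀.map Γ.subtype : Set G).Finite := by
      rw [AddSubgroup.coe_map]
      exact (Set.toFinite (H₀ : Set Γ)).image _
    exact this.to_subtype
  · have h1 : Nat.card (H₀.map Γ.subtype) = Nat.card H₀ :=
      Nat.card_congr (H₀.equivMapOfInjective Γ.subtype hinj).toEquiv.symm
    rw [h1, ← hcard]
    exact hvol
  · refine le_trans ?_ hT
    exact_mod_cast Finset.card_image_le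
  · intro a ha
    rw [← hA'] at ha
    obtain ⟨a', ha', rfl⟩ := Finset.mem_image.1 ha
    obtain ⟨t, ht, c, hc, h, hh, e⟩ := hcov a' ha'
    refine ⟨Γ.subtype t, Finset.mem_image_of_mem _ ht, c, hc, Γ.subtype h, ⟨h, hh, rfl⟩, ?_⟩
    rw [e, map_add, map_add]
    rfl

/-- numerical bounds for `κ' = log 2 + (log L)/⌊log₂ n⌋` -/
theorem kappa_bounds {n k : ℕ} (hk : 1 ≤ k) (hn : 2 ≤ n) {L κ' : ℝ} (hL1 : 1 ≤ L)
    (hκ' : κ' = Real.log 2 + Real.log L / (Nat.log 2 n : ℝ))
    (hkn : Real.log (2 * L) ≤ (n : ℝ) ^ k) :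
    300 * κ' ≤ 420 * (1 + Real.log (2 * L) / Real.log n) ∧
      Real.log L + 13000 * κ' * (1 + Real.log (1 + κ')) ≤ 86000 * k * Real.log (2 * L) := by
  obtain ⟨J, hJ⟩ : ∃ J, J = Nat.log 2 n := ⟨_, rfl⟩
  rw [← hJ] at hκ'
  have hJ1 : 1 ≤ J := by
    rw [hJ]
    exact Nat.log_pos (by norm_num) hn
  have hJR : (1 : ℝ) ≤ J := by exact_mod_cast hJ1
  have hnR : (2 : ℝ) ≤ n := by exact_mod_cast hn
  have hkR : (1 : ℝ) ≤ k := by exact_mod_cast hk
  have hl2 : (0.69 : ℝ) < Real.log 2 := by have := Real.log_two_gt_d9; linarith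
  have hl2' : Real.log 2 < (0.695 : ℝ) := by have := Real.log_two_lt_d9; linarith
  have hlogn : Real.log 2 ≤ Real.log n := Real.log_le_log (by norm_num) hnR
  have hlogn0 : 0 < Real.log n := by linarith
  have hlogn2 : Real.log n ≤ (J + 1) * Real.log 2 := by
    have h1 : n < 2 ^ (J + 1) := by
      rw [hJ]
      exact Nat.lt_pow_succ_log_self (by norm_num) n
    have h2 : (n : ℝ) ≤ 2 ^ (J + 1) := by exact_mod_cast h1.le
    have h3 := Real.log_le_log (by linarith) h2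
    rw [Real.log_pow] at h3
    push_cast at h3
    exact h3
  have hlogn3 : Real.log n ≤ 1.39 * J := by nlinarith
  have hlogL : 0 ≤ Real.log L := Real.log_nonneg hL1
  obtain ⟨κ, hκ⟩ : ∃ κ, κ = Real.log (2 * L) := ⟨_, rfl⟩
  have hκ2 : κ = Real.log 2 + Real.log L := by
    rw [hκ, Real.log_mul (by norm_num) (by linarith)]
  rw [← hκ] at hkn ⊢
  obtain ⟨ℓ, hℓ⟩ : ∃ ℓ, ℓ = Real.log L := ⟨_, rfl⟩
  rw [← hℓ] at hκ' hκ2 hlogL ⊢
  have hJ0 : (0 : ℝ) < J := by linarith
  have hdiv : ℓ / J ≤ 1.39 * (ℓ / Real.log n) := by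
    rw [div_le_iff₀ hJ0]
    have : 1.39 * (ℓ / Real.log n) * J = ℓ * ((1.39 * J) / Real.log n) := by ring
    rw [this]
    have h1 : 1 ≤ (1.39 * J) / Real.log n := by
      rw [le_div_iff₀ hlogn0]; linarith
    nlinarith
  have hdiv2 : ℓ / Real.log n ≤ κ / Real.log n := by
    apply div_le_div_of_nonneg_right _ hlogn0.le
    linarith
  have hd0 : 0 ≤ ℓ / Real.log n := div_nonneg hlogL hlogn0.le
  have hκ'0 : 0 < κ' := by
    rw [hκ']
    have : 0 ≤ ℓ / J := div_nonneg hlogL hJ0.le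
    linarith
  have hκ'κ : κ' ≤ κ := by
    rw [hκ', hκ2]
    have : ℓ / J ≤ ℓ := div_le_self hlogL hJR
    linarith
  have hκ69 : 0.69 < κ := by linarith
  refine ⟨by rw [hκ']; linarith, ?_⟩
  have hlog1 : 0 ≤ Real.log (1 + κ') := Real.log_nonneg (by linarith)
  have hmain : κ' * (1 + Real.log (1 + κ')) ≤ 6.6 * (k * κ) := by
    rcases le_total (Real.log n) κ with hc | hc
    · have h1 : Real.log (1 + κ') ≤ 0.695 + k * Real.log n := by
        have h2 : 1 + κ' ≤ 2 * (n : ℝ) ^ k := by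
          have : (1 : ℝ) ≤ (n : ℝ) ^ k := one_le_pow₀ (by linarith)
          linarith
        have h3 := Real.log_le_log (by linarith) h2
        rw [Real.log_mul (by norm_num) (by positivity), Real.log_pow] at h3
        linarith
      have h4 : κ' * Real.log n ≤ 2.1 * κ := by
        have h5 : κ' ≤ 0.695 + 1.39 * (ℓ / Real.log n) := by rw [hκ']; linarith
        calc κ' * Real.log n ≤ (0.695 + 1.39 * (ℓ / Real.log n)) * Real.log n :=
              mul_le_mul_of_nonneg_right h5 hlogn0.le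
          _ = 0.695 * Real.log n + 1.39 * ℓ := by field_simp
          _ ≤ 2.1 * κ := by linarith
      have h6 : κ' * (1 + Real.log (1 + κ')) ≤ κ' * (1 + (0.695 + k * Real.log n)) :=
        mul_le_mul_of_nonneg_left (by linarith) hκ'0.le
      have h7 : κ' * (1 + (0.695 + k * Real.log n)) = 1.695 * κ' + k * (κ' * Real.log n) := by
        ring
      have h8 : k * (κ' * Real.log n) ≤ k * (2.1 * κ) :=
        mul_le_mul_of_nonneg_left h4 (by linarith)
      have h9 : κ ≤ k * κ := by nlinarith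
      linarith
    · have h5 : κ' ≤ 2.1 := by
        have h6 : ℓ / Real.log n ≤ 1 := by
          rw [div_le_one hlogn0]; linarith
        rw [hκ']; linarith
      have h7 : Real.log (1 + κ') ≤ 1.15 := by
        rw [Real.log_le_iff_le_exp (by linarith)]
        have h8 : (2.7182 : ℝ) ≤ Real.exp 1 := by have := Real.exp_one_gt_d9; linarith
        have h9 : (1.15 : ℝ) ≤ Real.exp 0.15 := by
          have := Real.add_one_le_exp (0.15 : ℝ); linarith
        have h10 : Real.exp 1.15 = Real.exp 1 * Real.exp 0.15 := by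
          rw [← Real.exp_add]; norm_num
        rw [h10]
        have h11 : (2.7182 : ℝ) * 1.15 ≤ Real.exp 1 * Real.exp 0.15 :=
          mul_le_mul h8 h9 (by norm_num) (Real.exp_pos _).le
        norm_num at h11 ⊢
        linarith
      have h12 : κ' * (1 + Real.log (1 + κ')) ≤ 2.1 * (1 + 1.15) :=
        mul_le_mul h5 (by linarith) (by linarith) (by norm_num)
      have h13 : 0.69 ≤ k * κ := by nlinarith
      linarith
  have h14 : 13000 * κ' * (1 + Real.log (1 + κ')) = 13000 * (κ' * (1 + Real.log (1 + κ'))) := by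
    ring
  rw [h14]
  have h9 : κ ≤ k * κ := by nlinarith
  have h15 : 86000 * (k : ℝ) * κ = 86000 * (k * κ) := by ring
  rw [h15]
  linarith

/-- **Freiman-Ruzsa theorem for iterated sumsets.** -/
theorem iterated {G : Type*} [AddCommGroup G] [DecidableEq G] {k n : ℕ} (hk : 1 ≤ k)
    (hn : 2 ≤ n) {L : ℝ} {A : Finset G} (hA : A.Nonempty)
    (hL : ((sm A n).card : ℝ) ≤ L * A.card) (hkn : Real.log (2 * L) ≤ (n : ℝ) ^ k) :
    ∃ (d : ℕ) (B : Set (Fin d → ℝ)) (ψ : (Fin d → ℤ) →+ G) (H₀ : AddSubgroup G) (T : Finset G),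
      (d : ℝ) ≤ 420 * (1 + Real.log (2 * L) / Real.log n) ∧ SymmBody B ∧ Finite H₀ ∧
      {c : Fin d → ℤ | (fun i => (c i : ℝ)) ∈ B}.ncard * Nat.card H₀ ≤ A.card ∧
      (T.card : ℝ) ≤ (2 * L) ^ (86000 * k) ∧
      Covers B ψ H₀ T A := by
  classical
  have hApos : (0 : ℝ) < A.card := by exact_mod_cast hA.card_pos
  have hL1 : 1 ≤ L := by
    have h1 : A.card ≤ (sm A n).card := by
      have := sm_card_mono hA (show 1 ≤ n by omega)
      rwa [sm_one] at this
    have h2 : (A.card : ℝ) ≤ (sm A n).card := by exact_mod_cast h1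
    nlinarith
  obtain ⟨J, hJ⟩ : ∃ J, J = Nat.log 2 n := ⟨_, rfl⟩
  have hJ1 : 1 ≤ J := by
    rw [hJ]
    exact Nat.log_pos (by norm_num) hn
  have hJR : (1 : ℝ) ≤ J := by exact_mod_cast hJ1
  have hL' : ((sm A (2 ^ J)).card : ℝ) ≤ L * A.card := by
    have h1 : (sm A (2 ^ J)).card ≤ (sm A n).card := by
      apply sm_card_mono hA
      rw [hJ]
      exact Nat.pow_log_le_self 2 (by omega)
    have h2 : ((sm A (2 ^ J)).card : ℝ) ≤ (sm A n).card := by exact_mod_cast h1
    exact h2.trans hL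
  obtain ⟨K, hK⟩ : ∃ K : ℝ, K = L ^ (1 / (J : ℝ)) := ⟨_, rfl⟩
  have hK1 : 1 ≤ K := by
    rw [hK]
    exact Real.one_le_rpow hL1 (by positivity)
  have hK0 : 0 < K := by linarith
  have hKJ : K ^ J = L := by
    rw [hK, ← Real.rpow_natCast, ← Real.rpow_mul (by linarith)]
    have : 1 / (J : ℝ) * J = 1 := by field_simp
    rw [this, Real.rpow_one]
  obtain ⟨d, B, ψ, H₀, T, hd, hB, hH₀, hvol, hT, hcov⟩ :=
    scale_general hA hJ1 hL' hL1 hK1 hKJ.ge
  have hκ' : Real.log (2 * K) = Real.log 2 + Real.log L / (Nat.log 2 n : ℝ) := by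
    rw [Real.log_mul (by norm_num) (by linarith), hK, Real.log_rpow (by linarith), ← hJ]
    ring
  obtain ⟨hb1, hb2⟩ := kappa_bounds hk hn hL1 hκ' hkn
  refine ⟨d, B, ψ, H₀, T, hd.trans hb1, hB, hH₀, hvol, ?_, hcov⟩
  refine hT.trans ?_
  rw [← exp_eq_rpow hK1]
  have e1 : (2 * L) ^ (86000 * k) = Real.exp (86000 * k * Real.log (2 * L)) := by
    rw [← Real.exp_log (show (0 : ℝ) < (2 * L) ^ (86000 * k) by positivity), Real.log_pow]
    push_cast
    ring_nf
  rw [e1]
  calc L * Real.exp (13000 * Real.log (2 * K) * (1 + Real.log (1 + Real.log (2 * K))))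
      = Real.exp (Real.log L + 13000 * Real.log (2 * K) *
          (1 + Real.log (1 + Real.log (2 * K)))) := by
        rw [Real.exp_add, Real.exp_log (by linarith)]
    _ ≤ _ := Real.exp_le_exp.2 hb2

end Pool.Agent.TH513.IS
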